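import Pool.Agent.H15.PJ.Stm

set_option autoImplicit false

open MeasureTheory Set Filter Topology

namespace Pool.Agent.H54.PJ

open Pool.Agent.H15.PJ Pool.Agent.H16.NV

/-- the parametrisation of `JZ P Z` -/
def Phi {m : ℕ} (q : (ℝ × ℝ) × (Fin m → ℝ)) : Fin (m + 2) → ℝ :=
  Fin.cons ((1 - ∑ i, q.2 i) * q.1.2) (Fin.cons ((1 - ∑ i, q.2 i) * q.1.1) q.2)

theorem Phi_zero {m : ℕ} (q : (ℝ × ℝ) × (Fin m → ℝ)) :
    Phi q 0 = (1 - ∑ i, q.2 i) * q.1.2 := rfl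

theorem Phi_one {m : ℕ} (q : (ℝ × ℝ) × (Fin m → ℝ)) :
    Phi q 1 = (1 - ∑ i, q.2 i) * q.1.1 := rfl

theorem tl_Phi {m : ℕ} (q : (ℝ × ℝ) × (Fin m → ℝ)) : tl (Phi q) = q.2 := rfl

theorem ext_tl {m : ℕ} {x y : Fin (m + 2) → ℝ} (h0 : x 0 = y 0) (h1 : x 1 = y 1)
    (h2 : tl x = tl y) : x = y := by
  funext i
  refine Fin.cases h0 (fun j => ?_) i
  refine Fin.cases h1 (fun k => ?_) j
  exact congrFun h2 k

theorem JZ_eq {m : ℕ} (P : Set (ℝ × ℝ)) (Z : Set (Fin m → ℝ)) : JZ P Z = Phi '' (P ×ˢ Z) := by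
  ext x
  constructor
  · rintro ⟨hz, a, ha, h1, h0⟩
    exact ⟨(a, tl x), ⟨ha, hz⟩, ext_tl h0.symm h1.symm rfl⟩
  · rintro ⟨q, ⟨ha, hz⟩, rfl⟩
    exact ⟨hz, q.1, ha, rfl, rfl⟩

theorem Phi_cont {m : ℕ} : Continuous (Phi (m := m)) := by
  rw [continuous_pi_iff]
  intro i
  refine Fin.cases ?_ (fun j => ?_) i
  · show Continuous fun q : (ℝ × ℝ) × (Fin m → ℝ) => (1 - ∑ i, q.2 i) * q.1.2
    fun_prop
  · refine Fin.cases ?_ (fun k => ?_) j
    · show Continuous fun q : (ℝ × ℝ) × (Fin m → ℝ) => (1 - ∑ i, q.2 i) * q.1.1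
      fun_prop
    · show Continuous fun q : (ℝ × ℝ) × (Fin m → ℝ) => q.2 k
      fun_prop

theorem t_CPT : S_CPT := by
  intro m P Z hP hZ
  rw [JZ_eq]
  exact (hP.prod hZ).image Phi_cont

theorem tl_cont {m : ℕ} : Continuous (tl (m := m)) := by
  rw [continuous_pi_iff]
  intro i
  exact continuous_apply _

theorem sum_lt_one {m : ℕ} {Z : Set (Fin m → ℝ)} (hZ : ∀ z ∈ Z, ∑ i, z i ≤ 1)
    {z0 : Fin m → ℝ} (hz0 : z0 ∈ interior Z) : ∑ i, z0 i < 1 := by
  have hc : Continuous fun t : ℝ => (fun i => z0 i + t : Fin m → ℝ) := by fun_prop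
  have hn : (fun t : ℝ => (fun i => z0 i + t : Fin m → ℝ)) ⁻¹' Z ∈ 𝓝 (0 : ℝ) := by
    apply hc.continuousAt.preimage_mem_nhds
    simp only [add_zero]
    exact mem_interior_iff_mem_nhds.1 hz0
  obtain ⟨ε, hε, hb⟩ := Metric.mem_nhds_iff.1 hn
  have hmem : (ε / 2) ∈ Metric.ball (0 : ℝ) ε := by
    rw [Metric.mem_ball, dist_zero_right, Real.norm_eq_abs, abs_of_pos (by positivity)]
    linarith
  have h1 := hZ _ (hb hmem)
  rw [Finset.sum_add_distrib, Finset.sum_const, Finset.card_univ, Fintype.card_fin,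
    nsmul_eq_mul] at h1
  rcases Nat.eq_zero_or_pos m with rfl | hm
  · simp
  · have : (0 : ℝ) < (m : ℝ) * (ε / 2) := by positivity
    linarith

theorem t_POS : S_POS := by
  intro m P Z hP hZ
  have key : (interior (JZ P Z)).Nonempty := by
    obtain ⟨a0, ha0⟩ := hP
    obtain ⟨z0, hz0⟩ := hZ.int
    have hs := sum_lt_one hZ.le hz0
    refine ⟨Phi (a0, z0), ?_⟩
    rw [mem_interior_iff_mem_nhds]
    have hpos : (0 : ℝ) < 1 - ∑ i, z0 i := by linarith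
    let s : (Fin (m + 2) → ℝ) → ℝ := fun x => 1 - ∑ i, tl x i
    have hsc : Continuous s := by
      have : ∀ i : Fin m, Continuous fun x : Fin (m + 2) → ℝ => tl x i :=
        fun i => continuous_apply _
      exact continuous_const.sub (continuous_finsetSum _ (fun i _ => this i))
    have hs0 : s (Phi (a0, z0)) = 1 - ∑ i, z0 i := rfl
    have hne : s (Phi (a0, z0)) ≠ 0 := by rw [hs0]; exact hpos.ne'
    let Ψ : (Fin (m + 2) → ℝ) → ℝ × ℝ := fun x => (x 1 / s x, x 0 / s x)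
    have hΨ : ContinuousAt Ψ (Phi (a0, z0)) := by
      refine ContinuousAt.prodMk ?_ ?_
      · exact (continuous_apply (1 : Fin (m + 2))).continuousAt.div hsc.continuousAt hne
      · exact (continuous_apply (0 : Fin (m + 2))).continuousAt.div hsc.continuousAt hne
    have hΨ0 : Ψ (Phi (a0, z0)) = a0 := by
      have h1 : Ψ (Phi (a0, z0)) = ((1 - ∑ i, z0 i) * a0.1 / (1 - ∑ i, z0 i),
        (1 - ∑ i, z0 i) * a0.2 / (1 - ∑ i, z0 i)) := rfl
      rw [h1, mul_div_cancel_left₀ _ hpos.ne', mul_div_cancel_left₀ _ hpos.ne']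
    have n1 : Ψ ⁻¹' P ∈ 𝓝 (Phi (a0, z0)) := by
      apply hΨ.preimage_mem_nhds
      rw [hΨ0]
      exact mem_interior_iff_mem_nhds.1 ha0
    have n2 : tl ⁻¹' Z ∈ 𝓝 (Phi (a0, z0)) := by
      apply tl_cont.continuousAt.preimage_mem_nhds
      rw [tl_Phi]
      exact mem_interior_iff_mem_nhds.1 hz0
    have n3 : {x | s x ≠ 0} ∈ 𝓝 (Phi (a0, z0)) := by
      have : IsOpen {x | s x ≠ 0} := isOpen_ne_fun hsc continuous_const
      exact this.mem_nhds hne
    filter_upwards [n1, n2, n3] with x h1 h2 h3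
    refine ⟨h2, Ψ x, h1, ?_, ?_⟩
    · show x 1 = s x * (x 1 / s x)
      rw [mul_div_cancel₀ _ h3]
    · show x 0 = s x * (x 0 / s x)
      rw [mul_div_cancel₀ _ h3]
  exact ⟨key, (Measure.measure_pos_of_nonempty_interior volume key).ne'⟩

theorem t_INT : S_INT := by
  intro m P Z hJ hZ
  obtain ⟨x0, hx0⟩ := hJ
  have hmem := interior_subset hx0
  obtain ⟨hz, a0, ha0, h1, h0⟩ := hmem
  have hnh := mem_interior_iff_mem_nhds.1 hx0
  have hzint : tl x0 ∈ interior Z := by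
    rw [mem_interior_iff_mem_nhds]
    have hc : Continuous fun z : Fin m → ℝ =>
        (Fin.cons (x0 0) (Fin.cons (x0 1) z) : Fin (m + 2) → ℝ) := by
      rw [continuous_pi_iff]
      intro i
      refine Fin.cases ?_ (fun j => ?_) i
      · show Continuous fun z : Fin m → ℝ => x0 0
        fun_prop
      · refine Fin.cases ?_ (fun k => ?_) j
        · show Continuous fun z : Fin m → ℝ => x0 1
          fun_prop
        · show Continuous fun z : Fin m → ℝ => z k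
          fun_prop
    have hx : (Fin.cons (x0 0) (Fin.cons (x0 1) (tl x0)) : Fin (m + 2) → ℝ) = x0 :=
      ext_tl rfl rfl rfl
    have hn : (fun z : Fin m → ℝ =>
        (Fin.cons (x0 0) (Fin.cons (x0 1) z) : Fin (m + 2) → ℝ)) ⁻¹' (JZ P Z) ∈ 𝓝 (tl x0) := by
      apply hc.continuousAt.preimage_mem_nhds
      rw [hx]; exact hnh
    filter_upwards [hn] with z hz'
    exact hz'.1
  have hs := sum_lt_one hZ hzint
  have hpos : (0 : ℝ) < 1 - ∑ i, tl x0 i := by linarith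
  refine ⟨⟨a0, ?_⟩, ⟨tl x0, hzint⟩⟩
  rw [mem_interior_iff_mem_nhds]
  have hc : Continuous fun a : ℝ × ℝ => Phi (a, tl x0) :=
    Phi_cont.comp (by fun_prop)
  have hx : Phi (a0, tl x0) = x0 := ext_tl h0.symm h1.symm rfl
  have hn : (fun a : ℝ × ℝ => Phi (a, tl x0)) ⁻¹' (JZ P Z) ∈ 𝓝 a0 := by
    apply hc.continuousAt.preimage_mem_nhds
    rw [hx]; exact hnh
  filter_upwards [hn] with a ha
  obtain ⟨-, b, hb, e1, e0⟩ := ha
  have e1' : (1 - ∑ i, tl x0 i) * a.1 = (1 - ∑ i, tl x0 i) * b.1 := e1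
  have e0' : (1 - ∑ i, tl x0 i) * a.2 = (1 - ∑ i, tl x0 i) * b.2 := e0
  have : a = b := Prod.ext (mul_left_cancel₀ hpos.ne' e1') (mul_left_cancel₀ hpos.ne' e0')
  rw [this]; exact hb

end Pool.Agent.H54.PJ
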